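import Pool.Agent.N208.TS.Drb

set_option autoImplicit false
set_option linter.unusedSectionVars false

/-!
# The square of a motive decides whether its period group contains the derived group
-/

open Module Function TensorProduct Matrix

open scoped Kronecker

noncomputable section

namespace Pool.Agent.N208.TS

open Pool.Agent.Y102 Pool.Agent.W516.DR Pool.Agent.H204R3.GP Pool.Agent.W516.KC
  Pool.Agent.H204R3.SP Pool.Agent.TH119.MX Pool.Agent.R917 Pool.Agent.N208.AM Pool.Agent.N208.AD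

variable {n : ℕ}

theorem lam_ratR (lam : ℝ →ₗ[ℚ] ℚ) (x : ℝ) (q : ℚ) : lam (x * (q : ℝ)) = lam x * q := by
  have h2 : x * (q : ℝ) = q • x := by rw [Rat.smul_def, mul_comm]
  rw [h2, map_smul, smul_eq_mul, mul_comm]

/-- The components of the commutator with a rational operator. -/
theorem cm2_lamR (lam : ℝ →ₗ[ℚ] ℚ) (L : Matrix (Fin n) (Fin n) ℝ)
    (C : Matrix (Fin n × Fin n) (Fin n × Fin n) ℚ) (p q : Fin n × Fin n) :
    lam (cm2 L (C.map fun x => (x : ℝ)) p q) = cm2 (L.map lam) C p q := by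
  have h1 : ∀ p q, lam (op2 L p q) = op2 (L.map lam) p q := by
    rintro ⟨i, k⟩ ⟨j, l⟩
    unfold op2
    rw [Matrix.add_apply, Matrix.add_apply, Matrix.kronecker_apply, Matrix.kronecker_apply,
      Matrix.kronecker_apply, Matrix.kronecker_apply, map_add, Matrix.map_apply, Matrix.map_apply]
    have h2 : ∀ a b : Fin n, (1 : Matrix (Fin n) (Fin n) ℝ) a b =
        (((1 : Matrix (Fin n) (Fin n) ℚ) a b : ℚ) : ℝ) := by
      intro a b
      rw [Matrix.one_apply, Matrix.one_apply]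
      split_ifs <;> simp
    rw [h2, h2, lam_ratR, mul_comm _ (L k l), lam_ratR, mul_comm _ (lam (L k l))]
  unfold cm2
  rw [Matrix.sub_apply, Matrix.sub_apply, map_sub, Matrix.mul_apply, Matrix.mul_apply,
    Matrix.mul_apply, Matrix.mul_apply, map_sum, map_sum]
  congr 1
  · refine Finset.sum_congr rfl fun x _ => ?_
    rw [Matrix.map_apply, lam_ratR, h1]
  · refine Finset.sum_congr rfl fun x _ => ?_
    rw [Matrix.map_apply, mul_comm, lam_ratR, h1, mul_comm]

/-- A real matrix is in the real span of its rational components. -/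
theorem real_span (N : Matrix (Fin n) (Fin n) ℝ) {S : Submodule ℚ (Matrix (Fin n) (Fin n) ℚ)}
    (hf : ∀ f : ℝ →ₗ[ℚ] ℚ, N.map f ∈ S) :
    N ∈ Submodule.span ℝ {M | ∃ x ∈ S, M = rq x} := by
  classical
  let β := Basis.ofVectorSpace ℚ ℝ
  let t := Finset.univ.biUnion fun p : Fin n × Fin n => (β.repr (N p.1 p.2)).support
  have h1 : N = ∑ k ∈ t, β k • rq (N.map (β.coord k)) := by
    ext i j
    rw [Matrix.sum_apply]
    have h2 : ∀ k, (β k • rq (N.map (β.coord k))) i j = β.repr (N i j) k • β k := by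
      intro k
      have e : (rq (N.map (β.coord k)) : Matrix (Fin n) (Fin n) ℝ) i j =
          ((β.repr (N i j) k : ℚ) : ℝ) := rfl
      rw [Matrix.smul_apply, smul_eq_mul, Rat.smul_def, mul_comm, e]
    rw [Finset.sum_congr rfl fun k _ => h2 k]
    have h3 : (β.repr (N i j)).support ⊆ t := by
      intro k hk
      exact Finset.mem_biUnion.2 ⟨(i, j), Finset.mem_univ _, hk⟩
    have h4 := β.linearCombination_repr (N i j)
    rw [Finsupp.linearCombination_apply,
      Finsupp.sum_of_support_subset _ h3 _ fun k _ => zero_smul ℚ (β k)] at h4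
    exact h4.symm
  rw [h1]
  exact Submodule.sum_mem _ fun k _ => Submodule.smul_mem _ _
    (Submodule.subset_span ⟨_, hf (β.coord k), rfl⟩)

variable {g : ℕ} {A : AbVar g} {s : ℕ} {r : Fin s → ℕ} {B : Fin n → Ten A r} {w : Fin s → ℤ}
  {P : Matrix (Fin n) (Fin n) ℂ} {Wt : Matrix (Fin n) (Fin n) ℚ}
  {H : Set (Matrix (Fin n) (Fin n) ℂ)} {N : Matrix (Fin n) (Fin n) ℝ}

/-- The span of the products of the operators of the Lie algebra on the square of the motive. -/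
def adSq (B : Fin n → Ten A r) : Submodule ℚ (Matrix (Fin n × Fin n) (Fin n × Fin n) ℚ) :=
  Submodule.span ℚ
    {x | ∃ X Y, X ∈ A.NA ∧ Y ∈ A.NA ∧ ∃ M M', Rel B X M ∧ Rel B Y M' ∧ x = M ⊗ₖ M'}

/-- All de Rham-Betti classes in the square of the adjoint motive, as endomorphisms of the square of
the motive, are Hodge classes. -/
def SqHodge (B : Fin n → Ten A r) (P : Matrix (Fin n) (Fin n) ℂ)
    (N : Matrix (Fin n) (Fin n) ℝ) : Prop :=
  ∀ C ∈ adSq B, (∀ p q, IsAlgebraic ℚ (((P⁻¹ ⊗ₖ P⁻¹) * C.map (fun x => (x : ℂ)) *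
    (P ⊗ₖ P)) p q)) → cm2 N (C.map fun x => (x : ℝ)) = 0

theorem N_cdM (h : Mot w B P) (hW : WRel w B Wt) (hH : PtM P H) (hN : RelR B AbVar.JJ N)
    (hs : SqHodge B P N) : N ∈ Submodule.span ℝ {M | ∃ x ∈ cdM B Wt H, M = rq x} := by
  obtain ⟨N', hN', t, X, M, h1, h2⟩ := exists_J h
  have h3 : N = N' := hN.uniq h.li hN'
  subst h3
  have h4 : N ∈ spR B (A.NA : Set (Module.End ℚ A.H1)) := by
    rw [h2]
    exact Submodule.sum_mem _ fun k _ => Submodule.smul_mem _ _ (mem_spR (h1 k).1 (h1 k).2)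
  have hq := qM_full h hW hH
  have hc := hs _ (casM_mem h hq.le (trace_full hq)) (cas_alg h hW hH)
  refine real_span N fun f => ?_
  obtain ⟨X, hX, hM⟩ := map_spR h4 f
  have hc2 : cm2 (N.map f) (casM h hq.le (trace_full hq)) = 0 := by
    ext p q
    rw [← cm2_lamR, hc, Matrix.zero_apply, map_zero, Matrix.zero_apply]
  have hk : kerM B ≤ qM B Wt H := fun Y hY => ⟨hY.1, 0, hY.2, 0, by
    rw [zero_smul, add_zero]
    exact (LQ H).zero_mem⟩
  obtain ⟨Y, hY, hY2⟩ := norm_dec hq hX (cas_norm h hq hk hX hM hc2)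
  obtain ⟨Z, hZ, d, hd, hYd, hcomm⟩ := hq.dec hY
  have hZc : Z ∈ cenA A := by
    refine ⟨hq.le hZ, fun X hX => ?_⟩
    exact (hq.comm Z (fun X hX => (hcomm X hX).symm) X hX).symm
  have hZ2 := (cenA A).add_mem hY2 hZc
  obtain ⟨M1, hM1⟩ := h.st _ hZ2.1
  obtain ⟨M2, hM2⟩ := h.st _ (hq.le (hq.der_le hd))
  refine ⟨_, hZ2, d, hd, M1, M2, hM1, hM2, hM.uniq h.li ?_⟩
  have h5 : X = (X - Y + Z) + d := by
    rw [hYd]
    abel
  rw [h5]
  exact hM1.add hM2

/-- **Main theorem**, without a condition on the centre. -/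
theorem sq_der (h : Mot w B P) (hW : WRel w B Wt) (hH : PtM P H) (hN : RelR B AbVar.JJ N)
    (hs : SqHodge B P N) :
    ∃ L : Submodule ℚ (Matrix (Fin n) (Fin n) ℚ), (∀ x ∈ L, ∀ y ∈ L, x * y - y * x ∈ L) ∧
      N ∈ Submodule.span ℝ {M | ∃ x ∈ L, M = rq x} ∧
      ∀ x ∈ L, ∀ y ∈ L, x * y - y * x ∈ LQ H := by
  refine ⟨cdM B Wt H, fun x hx y hy => ?_, N_cdM h hW hH hN hs, fun x hx y hy => ?_⟩
  · obtain ⟨d, hd, hd'⟩ := cdM_br h hW hH hx hy
    exact ⟨0, (cenA A).zero_mem, d, hd, 0, _, Rel.zero, hd', (zero_add _).symm⟩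
  · obtain ⟨d, hd, hd'⟩ := cdM_br h hW hH hx hy
    obtain ⟨-, M', h6, h7⟩ := der_mem h hW hd
    rw [hd'.uniq h.li h6]
    exact h7

/-- **Main theorem.** -/
theorem sq_B (h : Mot w B P) (hW : WRel w B Wt) (hH : PtM P H) (hc : NoCentre B)
    (hN : RelR B AbVar.JJ N) (hs : SqHodge B P N) {z : ℂ} (hz : z ≠ 0) :
    NormedSpace.exp (KK Wt N z) ∈ H ∧ HRel w B z (NormedSpace.exp (KK Wt N z)) := by
  have h5 : N ∈ spR B (dq B Wt H : Set (Module.End ℚ A.H1)) := by
    have h1 := N_cdM h hW hH hN hs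
    refine (Submodule.span_le.2 ?_ : _ ≤ spR B (dq B Wt H : Set (Module.End ℚ A.H1))) h1
    rintro _ ⟨x, ⟨Z, hZ, d, hd, M1, M2, h1, h2, rfl⟩, rfl⟩
    have h7 : Rel B Z 0 := hc Z hZ.1 fun Y hY => by
      rw [hZ.2 Y hY, sub_self]
      exact Rel.zero
    rw [h1.uniq h.li h7, zero_add]
    exact mem_spR hd h2
  refine ⟨exp_mem hH.grp fun d => ?_, hrel_exp hW hN hz⟩
  unfold KK
  exact ((Wt_mem h hW hH hc d).smul _).add ((stab_spR h hW h5 d).smul _)

end Pool.Agent.N208.TS
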