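import Pool.Agent.N208.AD.Dec

set_option autoImplicit false
set_option linter.unusedSectionVars false

/-!
# The Casimir element of a full subalgebra, acting on the square of a motive
-/

open Module Function TensorProduct Matrix

open scoped Kronecker

noncomputable section

namespace Pool.Agent.N208.TS

open Pool.Agent.Y102 Pool.Agent.W516.DR Pool.Agent.H204R3.GP Pool.Agent.W516.KC
  Pool.Agent.H204R3.SP Pool.Agent.TH119.MX Pool.Agent.R917 Pool.Agent.N208.AM Pool.Agent.N208.AD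

variable {g : ℕ} {A : AbVar g}

/-- The trace form is not degenerate on a full subalgebra. -/
theorem trace_full {𝔮 : Submodule ℚ (Module.End ℚ A.H1)} (hq : A.Full 𝔮) :
    Pool.Agent.W516.KC2.TraceNondeg 𝔮 := by
  intro X hX htr
  have h1 := central_of_trace 𝔮 hq.semi hq.br hX htr
  have h2 := hq.comm X h1
  obtain ⟨M, hM⟩ := A.hodgeEnd_of_comm (P := X) fun Y hY => h2 Y (A.MA_le_NA hY)
  exact A.trace_sq hM (A.NA_skew (hq.le hX)) (htr X hX)

section Dual

variable {𝔮 : Submodule ℚ (Module.End ℚ A.H1)} (hnt : Pool.Agent.W516.KC2.TraceNondeg 𝔮)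

/-- A basis. -/
def eb (𝔮 : Submodule ℚ (Module.End ℚ A.H1)) : Basis (Fin (finrank ℚ 𝔮)) ℚ 𝔮 :=
  haveI : Module.Free ℚ 𝔮 := Module.Free.of_divisionRing ℚ 𝔮
  Module.finBasis ℚ 𝔮

/-- The dual basis. -/
def ed (i : Fin (finrank ℚ 𝔮)) : 𝔮 := (Pool.Agent.W516.KC2.trE 𝔮 hnt).symm ((eb 𝔮).coord i)

theorem tr_ed (i : Fin (finrank ℚ 𝔮)) (Y : 𝔮) :
    LinearMap.trace ℚ A.H1 ((ed hnt i).1 * Y.1) = (eb 𝔮).coord i Y :=
  Pool.Agent.W516.KC2.trE_symm 𝔮 hnt _ Y

theorem dec_eb (Y : 𝔮) :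
    Y = ∑ i, LinearMap.trace ℚ A.H1 ((ed hnt i).1 * Y.1) • eb 𝔮 i := by
  conv_lhs => rw [← (eb 𝔮).sum_repr Y]
  refine Finset.sum_congr rfl fun i _ => ?_
  rw [tr_ed hnt i Y]
  rfl

theorem dec_ed (Y : 𝔮) :
    Y = ∑ i, LinearMap.trace ℚ A.H1 (Y.1 * (eb 𝔮 i).1) • ed hnt i := by
  rw [← sub_eq_zero]
  set Z := Y - ∑ i, LinearMap.trace ℚ A.H1 (Y.1 * (eb 𝔮 i).1) • ed hnt i with hZ
  have h1 : ∀ j, LinearMap.trace ℚ A.H1 (Z.1 * (eb 𝔮 j).1) = 0 := by
    intro j
    rw [hZ, Submodule.coe_sub, Submodule.coe_sum, sub_mul, map_sub, Finset.sum_mul, map_sum]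
    have h2 : ∀ i, LinearMap.trace ℚ A.H1
        (((LinearMap.trace ℚ A.H1 (Y.1 * (eb 𝔮 i).1) • ed hnt i : 𝔮) : Module.End ℚ A.H1) *
          (eb 𝔮 j).1) = if i = j then LinearMap.trace ℚ A.H1 (Y.1 * (eb 𝔮 i).1) else 0 := by
      intro i
      rw [Submodule.coe_smul, smul_mul_assoc, map_smul, tr_ed hnt i (eb 𝔮 j), smul_eq_mul,
        Basis.coord_apply, Basis.repr_self, Finsupp.single_apply]
      by_cases hij : i = j
      · subst hij
        rw [if_pos rfl, if_pos rfl, mul_one]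
      · rw [if_neg fun h => hij h.symm, if_neg hij, mul_zero]
    rw [Finset.sum_congr rfl fun i _ => h2 i, Finset.sum_ite_eq' Finset.univ j,
      if_pos (Finset.mem_univ j), sub_self]
  apply Subtype.ext
  refine hnt _ Z.2 fun X hX => ?_
  have h3 := (eb 𝔮).sum_repr ⟨X, hX⟩
  have h4 : X = ∑ i, (eb 𝔮).repr ⟨X, hX⟩ i • (eb 𝔮 i).1 := by
    have h5 := congrArg Subtype.val h3
    rw [Submodule.coe_sum] at h5
    exact h5.symm
  rw [h4, Finset.mul_sum, map_sum]
  refine Finset.sum_eq_zero fun i _ => ?_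
  rw [mul_smul_comm, map_smul, h1 i, smul_zero]

end Dual

/-! ### Operators on the square -/

section Sq

variable {n : ℕ}

/-- The action of a matrix on the tensor square, as a derivation. -/
def op2 {R : Type} [CommRing R] (M : Matrix (Fin n) (Fin n) R) :
    Matrix (Fin n × Fin n) (Fin n × Fin n) R := M ⊗ₖ 1 + 1 ⊗ₖ M

/-- The commutator with the action on the tensor square. -/
def cm2 {R : Type} [CommRing R] (M : Matrix (Fin n) (Fin n) R)
    (C : Matrix (Fin n × Fin n) (Fin n × Fin n) R) : Matrix (Fin n × Fin n) (Fin n × Fin n) R :=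
  op2 M * C - C * op2 M

variable {R : Type} [CommRing R]

theorem op2_add (M M' : Matrix (Fin n) (Fin n) R) : op2 (M + M') = op2 M + op2 M' := by
  unfold op2
  rw [Matrix.add_kronecker, Matrix.kronecker_add]
  abel

theorem op2_smul (c : R) (M : Matrix (Fin n) (Fin n) R) : op2 (c • M) = c • op2 M := by
  unfold op2
  rw [Matrix.smul_kronecker, Matrix.kronecker_smul, smul_add]

theorem op2_zero : op2 (0 : Matrix (Fin n) (Fin n) R) = 0 := by
  unfold op2
  rw [Matrix.zero_kronecker, Matrix.kronecker_zero, add_zero]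

theorem cm2_add (M M' : Matrix (Fin n) (Fin n) R) (C : Matrix (Fin n × Fin n) (Fin n × Fin n) R) :
    cm2 (M + M') C = cm2 M C + cm2 M' C := by
  unfold cm2
  rw [op2_add, add_mul, mul_add]
  abel

theorem cm2_smul (c : R) (M : Matrix (Fin n) (Fin n) R)
    (C : Matrix (Fin n × Fin n) (Fin n × Fin n) R) : cm2 (c • M) C = c • cm2 M C := by
  unfold cm2
  rw [op2_smul, smul_mul_assoc, mul_smul_comm, smul_sub]

theorem cm2_kr (M a b : Matrix (Fin n) (Fin n) R) :
    cm2 M (a ⊗ₖ b) = (M * a - a * M) ⊗ₖ b + a ⊗ₖ (M * b - b * M) := by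
  unfold cm2 op2
  rw [add_mul, mul_add, ← Matrix.mul_kronecker_mul, ← Matrix.mul_kronecker_mul,
    ← Matrix.mul_kronecker_mul, ← Matrix.mul_kronecker_mul, one_mul, one_mul, mul_one, mul_one]
  ext ⟨i, k⟩ ⟨j, l⟩
  simp only [Matrix.sub_apply, Matrix.add_apply, Matrix.kronecker_apply]
  ring

theorem cm2_sum {ι : Type} (s : Finset ι) (M : Matrix (Fin n) (Fin n) R)
    (C : ι → Matrix (Fin n × Fin n) (Fin n × Fin n) R) :
    cm2 M (∑ i ∈ s, C i) = ∑ i ∈ s, cm2 M (C i) := by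
  unfold cm2
  rw [Finset.mul_sum, Finset.sum_mul, ← Finset.sum_sub_distrib]

end Sq

end Pool.Agent.N208.TS
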