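import Pool.Agent.N208.TS.Sq

set_option autoImplicit false
set_option linter.unusedSectionVars false

/-!
# The Casimir element is a de Rham-Betti class
-/

open Module Function TensorProduct Matrix

open scoped Kronecker

noncomputable section

namespace Pool.Agent.N208.TS

open Pool.Agent.Y102 Pool.Agent.W516.DR Pool.Agent.H204R3.GP Pool.Agent.W516.KC
  Pool.Agent.H204R3.SP Pool.Agent.TH119.MX Pool.Agent.R917 Pool.Agent.N208.AM Pool.Agent.N208.AD

section Der

variable {ι : Type} [Fintype ι] [DecidableEq ι] (D : Derivation QBar ℂ ℂ)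

theorem dmap_mul (X Y : Matrix ι ι ℂ) : (X * Y).map D = X.map D * Y + X * Y.map D := by
  ext i j
  rw [Matrix.map_apply, Matrix.mul_apply, map_sum, Matrix.add_apply, Matrix.mul_apply,
    Matrix.mul_apply, ← Finset.sum_add_distrib]
  refine Finset.sum_congr rfl fun k _ => ?_
  rw [D.leibniz, Matrix.map_apply, Matrix.map_apply, smul_eq_mul, smul_eq_mul]
  ring

theorem der_alg {x : ℂ} (hx : IsAlgebraic ℚ x) : D x = 0 := by
  have h1 : x ∈ algebraicClosure ℚ ℂ := mem_algebraicClosure_iff.2 hx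
  exact D.map_algebraMap ⟨x, h1⟩

theorem der_rat (q : ℚ) : D (q : ℂ) = 0 :=
  der_alg D (isAlgebraic_algebraMap (R := ℚ) (A := ℂ) q)

theorem dmap_rat (X : Matrix ι ι ℚ) : (X.map fun q => (q : ℂ)).map D = 0 := by
  ext i j
  rw [Matrix.map_apply, Matrix.map_apply, der_rat, Matrix.zero_apply]

theorem dmap_kr (X Y : Matrix ι ι ℂ) : (X ⊗ₖ Y).map D = X.map D ⊗ₖ Y + X ⊗ₖ Y.map D := by
  ext ⟨i, k⟩ ⟨j, l⟩
  rw [Matrix.map_apply, Matrix.kronecker_apply, D.leibniz, Matrix.add_apply,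
    Matrix.kronecker_apply, Matrix.kronecker_apply, Matrix.map_apply, Matrix.map_apply,
    smul_eq_mul, smul_eq_mul]
  ring

theorem alg_of_der {x : ℂ} (hx : ∀ D : Derivation QBar ℂ ℂ, D x = 0) : IsAlgebraic ℚ x := by
  obtain ⟨a, ha⟩ := mem_of_derivation hx
  rw [← ha]
  exact QBar.alg a

end Der

variable {n : ℕ}

theorem lam_rat (lam : ℂ →ₗ[ℚ] ℚ) (x : ℂ) (q : ℚ) : lam (x * (q : ℂ)) = lam x * q := by
  have h2 : x * (q : ℂ) = q • x := by rw [Rat.smul_def, mul_comm]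
  rw [h2, map_smul, smul_eq_mul, mul_comm]

/-- The components of the commutator with a rational operator. -/
theorem cm2_lam (lam : ℂ →ₗ[ℚ] ℚ) (L : Matrix (Fin n) (Fin n) ℂ)
    (C : Matrix (Fin n × Fin n) (Fin n × Fin n) ℚ) (p q : Fin n × Fin n) :
    lam (cm2 L (C.map fun x => (x : ℂ)) p q) = cm2 (L.map lam) C p q := by
  have h1 : ∀ p q, lam (op2 L p q) = op2 (L.map lam) p q := by
    rintro ⟨i, k⟩ ⟨j, l⟩
    unfold op2
    rw [Matrix.add_apply, Matrix.add_apply, Matrix.kronecker_apply, Matrix.kronecker_apply,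
      Matrix.kronecker_apply, Matrix.kronecker_apply, map_add, Matrix.map_apply, Matrix.map_apply]
    have h2 : ∀ a b : Fin n, (1 : Matrix (Fin n) (Fin n) ℂ) a b =
        (((1 : Matrix (Fin n) (Fin n) ℚ) a b : ℚ) : ℂ) := by
      intro a b
      rw [Matrix.one_apply, Matrix.one_apply]
      split_ifs <;> simp
    rw [h2, h2, lam_rat, mul_comm _ (L k l), lam_rat, mul_comm _ (lam (L k l))]
  unfold cm2
  rw [Matrix.sub_apply, Matrix.sub_apply, map_sub, Matrix.mul_apply, Matrix.mul_apply,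
    Matrix.mul_apply, Matrix.mul_apply, map_sum, map_sum]
  congr 1
  · refine Finset.sum_congr rfl fun x _ => ?_
    rw [Matrix.map_apply, lam_rat, h1]
  · refine Finset.sum_congr rfl fun x _ => ?_
    rw [Matrix.map_apply, mul_comm, lam_rat, h1, mul_comm]

variable {g : ℕ} {A : AbVar g} {s : ℕ} {r : Fin s → ℕ} {B : Fin n → Ten A r} {w : Fin s → ℤ}
  {P : Matrix (Fin n) (Fin n) ℂ} {Wt : Matrix (Fin n) (Fin n) ℚ}
  {H : Set (Matrix (Fin n) (Fin n) ℂ)} {N : Matrix (Fin n) (Fin n) ℝ}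

/-- The weights commute with the Casimir element. -/
theorem cas_Wt (h : Mot w B P) (hW : WRel w B Wt) {𝔮 : Submodule ℚ (Module.End ℚ A.H1)}
    (hle : 𝔮 ≤ A.NA) (hnt : Pool.Agent.W516.KC2.TraceNondeg 𝔮) :
    cm2 Wt (casM h hle hnt) = 0 := by
  unfold casM
  rw [cm2_sum]
  refine Finset.sum_eq_zero fun i _ => ?_
  rw [cm2_kr]
  have h1 : ∀ X : 𝔮, Wt * rhq h hle X - rhq h hle X * Wt = 0 := fun X =>
    sub_eq_zero.2 (WRel.comm h.li (rhq_spec h hle X) hW).symm
  rw [h1, h1, Matrix.zero_kronecker, Matrix.kronecker_zero, add_zero]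

/-- A logarithmic derivative commutes with the Casimir element. -/
theorem cas_log (h : Mot w B P) (hW : WRel w B Wt) (hH : PtM P H) (D : Derivation QBar ℂ ℂ) :
    cm2 (P.map D * P⁻¹) ((casM h (qM_full h hW hH).le (trace_full (qM_full h hW hH))).map
      fun x => (x : ℂ)) = 0 := by
  have hu : IsUnit P.det := isUnit_iff_ne_zero.2 h.det
  have h1 := Matrix.mul_nonsing_inv _ hu
  have hq := qM_full h hW hH
  ext p q
  rw [Matrix.zero_apply]
  refine eq_zero_of_dual (k := ℚ) fun lam => ?_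
  rw [cm2_lam]
  have h0 : X0 A.basis tau D lam ∈ A.NA := A.LA_le_NA (by
    rw [AbVar.LA_eq]
    exact X0_mem A.basis AbVar.tau_ne D lam)
  obtain ⟨M, hM⟩ := h.st _ h0
  have h2 : X0 A.basis tau D lam ∈ qM B Wt H := ⟨h0, M, hM, _, log_mem h hH D lam hM hW⟩
  have h3 : (P.map D * P⁻¹).map lam = M + lam (D tau / (2 * tau)) • Wt := by
    ext b c
    rw [Matrix.map_apply, lam_log h h1 D lam hM hW b c, Matrix.add_apply, Matrix.smul_apply,
      smul_eq_mul]
  rw [h3, cm2_add, cm2_smul, cas_Wt h hW, smul_zero, add_zero,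
    cas_comm h _ _ (fun Y hY => hq.br Y hY _ h2) hM, Matrix.zero_apply]

/-- **The Casimir element is a de Rham-Betti endomorphism of the square of the motive.** -/
theorem cas_alg (h : Mot w B P) (hW : WRel w B Wt) (hH : PtM P H) (p q : Fin n × Fin n) :
    IsAlgebraic ℚ (((P⁻¹ ⊗ₖ P⁻¹) * (casM h (qM_full h hW hH).le
      (trace_full (qM_full h hW hH))).map (fun x => (x : ℂ)) * (P ⊗ₖ P)) p q) := by
  have hu : IsUnit P.det := isUnit_iff_ne_zero.2 h.det
  have h1 := Matrix.mul_nonsing_inv _ hu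
  have h2 := Matrix.nonsing_inv_mul _ hu
  refine alg_of_der fun D => ?_
  have h3 := cas_log h hW hH D
  set C := (casM h (qM_full h hW hH).le (trace_full (qM_full h hW hH))).map fun x => (x : ℂ)
    with hC
  have e0 : C.map D = 0 := dmap_rat D _
  set L := P.map D * P⁻¹ with hL
  have e1 : P.map D = L * P := by
    rw [hL, Matrix.mul_assoc, h2, Matrix.mul_one]
  have e2 : (P⁻¹).map D = -(P⁻¹ * L) := by
    have h4 : (P * P⁻¹).map D = 0 := by
      rw [h1]
      ext i j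
      rw [Matrix.map_apply, Matrix.one_apply, Matrix.zero_apply]
      split_ifs
      · exact D.map_one_eq_zero
      · exact map_zero D
    rw [dmap_mul, ← hL] at h4
    have h5 := congrArg (fun X => P⁻¹ * X) h4
    simp only [Matrix.mul_add, Matrix.mul_zero] at h5
    rw [← Matrix.mul_assoc P⁻¹ P, h2, Matrix.one_mul] at h5
    exact eq_neg_of_add_eq_zero_right h5
  have e3 : (P ⊗ₖ P).map D = op2 L * (P ⊗ₖ P) := by
    unfold op2
    rw [dmap_kr, e1, Matrix.add_mul, ← Matrix.mul_kronecker_mul, ← Matrix.mul_kronecker_mul,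
      Matrix.one_mul]
  have e4 : (P⁻¹ ⊗ₖ P⁻¹).map D = -((P⁻¹ ⊗ₖ P⁻¹) * op2 L) := by
    unfold op2
    rw [dmap_kr, e2, Matrix.mul_add, ← Matrix.mul_kronecker_mul, ← Matrix.mul_kronecker_mul,
      Matrix.mul_one]
    ext ⟨i, k⟩ ⟨j, l⟩
    simp only [Matrix.add_apply, Matrix.neg_apply, Matrix.kronecker_apply]
    ring
  have e5 : ((P⁻¹ ⊗ₖ P⁻¹) * C * (P ⊗ₖ P)).map D = -((P⁻¹ ⊗ₖ P⁻¹) * cm2 L C * (P ⊗ₖ P)) := by
    rw [dmap_mul, dmap_mul, e0, e3, e4, Matrix.mul_zero, add_zero]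
    unfold cm2
    rw [Matrix.mul_sub, Matrix.sub_mul, Matrix.neg_mul, Matrix.neg_mul]
    simp only [Matrix.mul_assoc]
    abel
  have e6 := congrFun (congrFun e5 p) q
  rw [h3, Matrix.mul_zero, Matrix.zero_mul, neg_zero, Matrix.zero_apply, Matrix.map_apply] at e6
  exact e6

end Pool.Agent.N208.TS
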