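import Pool.Agent.N208.TS.Cas

set_option autoImplicit false
set_option linter.unusedSectionVars false

/-!
# The Casimir element of a full subalgebra: its commutators with the Lie algebra
-/

open Module Function TensorProduct Matrix

open scoped Kronecker

noncomputable section

namespace Pool.Agent.N208.TS

open Pool.Agent.Y102 Pool.Agent.W516.DR Pool.Agent.H204R3.GP Pool.Agent.W516.KC
  Pool.Agent.H204R3.SP Pool.Agent.TH119.MX Pool.Agent.R917 Pool.Agent.N208.AM Pool.Agent.N208.AD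

variable {g : ℕ} {A : AbVar g} {s n : ℕ} {r : Fin s → ℕ} {B : Fin n → Ten A r} {w : Fin s → ℤ}
  {P : Matrix (Fin n) (Fin n) ℂ} {Wt : Matrix (Fin n) (Fin n) ℚ}

/-- The action on the motive. -/
def rho (h : Mot w B P) : A.NA →ₗ[ℚ] Matrix (Fin n) (Fin n) ℚ where
  toFun X := (h.st X.1 X.2).choose
  map_add' X Y := Rel.uniq h.li (h.st (X + Y).1 (X + Y).2).choose_spec
    ((h.st X.1 X.2).choose_spec.add (h.st Y.1 Y.2).choose_spec)
  map_smul' c X := Rel.uniq h.li (h.st (c • X).1 (c • X).2).choose_spec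
    ((h.st X.1 X.2).choose_spec.smul c)

theorem rho_spec (h : Mot w B P) (X : A.NA) : Rel B X.1 (rho h X) :=
  (h.st X.1 X.2).choose_spec

theorem rho_eq (h : Mot w B P) {X : Module.End ℚ A.H1} (hX : X ∈ A.NA)
    {M : Matrix (Fin n) (Fin n) ℚ} (hM : Rel B X M) : rho h ⟨X, hX⟩ = M :=
  (rho_spec h ⟨X, hX⟩).uniq h.li hM

variable {𝔮 : Submodule ℚ (Module.End ℚ A.H1)}

/-- The action of the subalgebra on the motive. -/
def rhq (h : Mot w B P) (hle : 𝔮 ≤ A.NA) : 𝔮 →ₗ[ℚ] Matrix (Fin n) (Fin n) ℚ :=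
  (rho h).comp (Submodule.inclusion hle)

theorem rhq_spec (h : Mot w B P) (hle : 𝔮 ≤ A.NA) (X : 𝔮) : Rel B X.1 (rhq h hle X) :=
  rho_spec h (Submodule.inclusion hle X)

/-- The Casimir element. -/
def casM (h : Mot w B P) (hle : 𝔮 ≤ A.NA) (hnt : Pool.Agent.W516.KC2.TraceNondeg 𝔮) :
    Matrix (Fin n × Fin n) (Fin n × Fin n) ℚ :=
  ∑ i, rhq h hle (eb 𝔮 i) ⊗ₖ rhq h hle (ed hnt i)

theorem casM_mem (h : Mot w B P) (hle : 𝔮 ≤ A.NA)
    (hnt : Pool.Agent.W516.KC2.TraceNondeg 𝔮) : casM h hle hnt ∈ Submodule.span ℚ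
      {x | ∃ X Y, X ∈ A.NA ∧ Y ∈ A.NA ∧ ∃ M M', Rel B X M ∧ Rel B Y M' ∧ x = M ⊗ₖ M'} :=
  Submodule.sum_mem _ fun i _ => Submodule.subset_span
    ⟨_, _, hle (eb 𝔮 i).2, hle (ed hnt i).2, _, _, rhq_spec h hle _, rhq_spec h hle _, rfl⟩

theorem kr_sum_left {ι : Type} (t : Finset ι) (c : ι → ℚ) (a : ι → Matrix (Fin n) (Fin n) ℚ)
    (b : Matrix (Fin n) (Fin n) ℚ) :
    (∑ i ∈ t, c i • a i) ⊗ₖ b = ∑ i ∈ t, c i • (a i ⊗ₖ b) := by
  ext ⟨i, k⟩ ⟨j, l⟩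
  simp only [Matrix.kronecker_apply, Matrix.sum_apply, Matrix.smul_apply, smul_eq_mul,
    Finset.sum_mul, mul_assoc]

theorem kr_sum_right {ι : Type} (t : Finset ι) (c : ι → ℚ) (a : ι → Matrix (Fin n) (Fin n) ℚ)
    (b : Matrix (Fin n) (Fin n) ℚ) :
    b ⊗ₖ (∑ i ∈ t, c i • a i) = ∑ i ∈ t, c i • (b ⊗ₖ a i) := by
  ext ⟨i, k⟩ ⟨j, l⟩
  simp only [Matrix.kronecker_apply, Matrix.sum_apply, Matrix.smul_apply, smul_eq_mul,
    Finset.mul_sum]
  exact Finset.sum_congr rfl fun x _ => by ring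

/-- The Casimir element commutes with the normalizer of the subalgebra. -/
theorem cas_comm (h : Mot w B P) (hle : 𝔮 ≤ A.NA) (hnt : Pool.Agent.W516.KC2.TraceNondeg 𝔮)
    {X : Module.End ℚ A.H1} (hn : ∀ Y ∈ 𝔮, Y * X - X * Y ∈ 𝔮)
    {M : Matrix (Fin n) (Fin n) ℚ} (hM : Rel B X M) : cm2 M (casM h hle hnt) = 0 := by
  have hδ : ∀ Y : 𝔮, M * rhq h hle Y - rhq h hle Y * M =
      rhq h hle ⟨Y.1 * X - X * Y.1, hn Y.1 Y.2⟩ := by
    intro Y
    have h1 : Rel B (Y.1 * X - X * Y.1) (M * rhq h hle Y - rhq h hle Y * M) :=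
      (rhq_spec h hle Y).br hM
    have h2 := rhq_spec h hle (⟨Y.1 * X - X * Y.1, hn Y.1 Y.2⟩ : 𝔮)
    exact h1.uniq h.li h2
  have e1 : ∀ i, rhq h hle ⟨_, hn _ (eb 𝔮 i).2⟩ = ∑ j, LinearMap.trace ℚ A.H1
      ((ed hnt j).1 * ((eb 𝔮 i).1 * X - X * (eb 𝔮 i).1)) • rhq h hle (eb 𝔮 j) := by
    intro i
    conv_lhs => rw [dec_eb hnt ⟨_, hn _ (eb 𝔮 i).2⟩]
    rw [map_sum]
    exact Finset.sum_congr rfl fun j _ => map_smul _ _ _
  have e2 : ∀ i, rhq h hle ⟨_, hn _ (ed hnt i).2⟩ = ∑ j, LinearMap.trace ℚ A.H1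
      (((ed hnt i).1 * X - X * (ed hnt i).1) * (eb 𝔮 j).1) • rhq h hle (ed hnt j) := by
    intro i
    conv_lhs => rw [dec_ed hnt ⟨_, hn _ (ed hnt i).2⟩]
    rw [map_sum]
    exact Finset.sum_congr rfl fun j _ => map_smul _ _ _
  unfold casM
  rw [cm2_sum]
  have e3 : ∀ i, cm2 M (rhq h hle (eb 𝔮 i) ⊗ₖ rhq h hle (ed hnt i)) =
      (∑ j, LinearMap.trace ℚ A.H1 ((ed hnt j).1 * ((eb 𝔮 i).1 * X - X * (eb 𝔮 i).1)) •
        (rhq h hle (eb 𝔮 j) ⊗ₖ rhq h hle (ed hnt i))) +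
      ∑ j, LinearMap.trace ℚ A.H1 (((ed hnt i).1 * X - X * (ed hnt i).1) * (eb 𝔮 j).1) •
        (rhq h hle (eb 𝔮 i) ⊗ₖ rhq h hle (ed hnt j)) := by
    intro i
    rw [cm2_kr, hδ, hδ, e1, e2, kr_sum_left, kr_sum_right]
  rw [Finset.sum_congr rfl fun i _ => e3 i, Finset.sum_add_distrib]
  conv_lhs =>
    rw [Finset.sum_comm]
  rw [← Finset.sum_add_distrib]
  refine Finset.sum_eq_zero fun i _ => ?_
  rw [← Finset.sum_add_distrib]
  refine Finset.sum_eq_zero fun j _ => ?_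
  rw [← add_smul]
  have e4 : LinearMap.trace ℚ A.H1 ((ed hnt i).1 * ((eb 𝔮 j).1 * X - X * (eb 𝔮 j).1)) +
      LinearMap.trace ℚ A.H1 (((ed hnt i).1 * X - X * (ed hnt i).1) * (eb 𝔮 j).1) = 0 := by
    rw [mul_sub, sub_mul, map_sub, map_sub, ← mul_assoc (ed hnt i).1 (eb 𝔮 j).1 X,
      LinearMap.trace_mul_comm ℚ _ X, ← mul_assoc, ← mul_assoc]
    ring
  rw [e4, zero_smul]

/-- Contraction of an operator on the square with a linear functional. -/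
def ctr (f : Matrix (Fin n) (Fin n) ℚ →ₗ[ℚ] ℚ) :
    Matrix (Fin n × Fin n) (Fin n × Fin n) ℚ →ₗ[ℚ] Matrix (Fin n) (Fin n) ℚ where
  toFun T := Matrix.of fun k l => f (Matrix.of fun i j => T (i, k) (j, l))
  map_add' T T' := by
    ext k l
    rw [Matrix.add_apply, Matrix.of_apply, Matrix.of_apply, Matrix.of_apply, ← map_add]
    rfl
  map_smul' c T := by
    ext k l
    rw [RingHom.id_apply, Matrix.smul_apply, Matrix.of_apply, Matrix.of_apply, ← map_smul]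
    rfl

theorem ctr_kr (f : Matrix (Fin n) (Fin n) ℚ →ₗ[ℚ] ℚ) (a b : Matrix (Fin n) (Fin n) ℚ) :
    ctr f (a ⊗ₖ b) = f a • b := by
  ext k l
  change f (Matrix.of fun i j => (a ⊗ₖ b) (i, k) (j, l)) = f a * b k l
  have h1 : (Matrix.of fun i j => (a ⊗ₖ b) (i, k) (j, l)) = b k l • a := by
    ext i j
    rw [Matrix.of_apply, Matrix.kronecker_apply, Matrix.smul_apply, smul_eq_mul, mul_comm]
  rw [h1, map_smul, smul_eq_mul, mul_comm]

/-- If an element commutes with the Casimir element, it normalizes the subalgebra. -/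
theorem cas_norm (h : Mot w B P) (hq : A.Full 𝔮) (hk : kerM B ≤ 𝔮)
    {X : Module.End ℚ A.H1} (hX : X ∈ A.NA) {M : Matrix (Fin n) (Fin n) ℚ} (hM : Rel B X M)
    (hc : cm2 M (casM h hq.le (trace_full hq)) = 0) : ∀ Y ∈ 𝔮, Y * X - X * Y ∈ 𝔮 := by
  intro Y hY
  set hle := hq.le
  set hnt := trace_full hq
  -- the bracket is in the image
  have key : M * rhq h hle ⟨Y, hY⟩ - rhq h hle ⟨Y, hY⟩ * M ∈ LinearMap.range (rhq h hle) := by
    by_contra hcon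
    obtain ⟨f, hf1, hf2⟩ := Submodule.exists_dual_map_eq_bot_of_notMem hcon inferInstance
    have hf0 : ∀ Z : 𝔮, f (rhq h hle Z) = 0 := by
      intro Z
      have h3 : f (rhq h hle Z) ∈ Submodule.map f (LinearMap.range (rhq h hle)) :=
        Submodule.mem_map_of_mem ⟨Z, rfl⟩
      rwa [hf2, Submodule.mem_bot] at h3
    let c : 𝔮 →ₗ[ℚ] ℚ := f.comp ((LinearMap.mulLeft ℚ M - LinearMap.mulRight ℚ M).comp
      (rhq h hle))
    have hcY : ∀ Z : 𝔮, c Z = f (M * rhq h hle Z - rhq h hle Z * M) := fun Z => rfl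
    let κ : 𝔮 := ∑ i, c (eb 𝔮 i) • ed hnt i
    have h1 : rhq h hle κ = 0 := by
      have h2 := congrArg (ctr f) hc
      unfold casM at h2
      rw [cm2_sum, map_sum, map_zero] at h2
      rw [← h2]
      change rhq h hle (∑ i, c (eb 𝔮 i) • ed hnt i) = _
      rw [map_sum]
      refine Finset.sum_congr rfl fun i _ => ?_
      rw [map_smul, cm2_kr, map_add, ctr_kr, ctr_kr, hf0, zero_smul, add_zero, hcY]
    have h2 : κ.1 ∈ kerM B := by
      refine ⟨hle κ.2, ?_⟩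
      have h3 := rhq_spec h hle κ
      rwa [h1] at h3
    have h3 : ∀ Z : 𝔮, LinearMap.trace ℚ A.H1 (κ.1 * Z.1) = c Z := by
      intro Z
      have h4 : κ.1 = ∑ i, c (eb 𝔮 i) • (ed hnt i).1 := by
        change ((∑ i, c (eb 𝔮 i) • ed hnt i : 𝔮) : Module.End ℚ A.H1) = _
        rw [Submodule.coe_sum]
        rfl
      rw [h4, Finset.sum_mul, map_sum]
      conv_rhs => rw [← (eb 𝔮).sum_repr Z, map_sum]
      refine Finset.sum_congr rfl fun i _ => ?_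
      rw [smul_mul_assoc, map_smul, tr_ed hnt i Z, map_smul, smul_eq_mul, smul_eq_mul, mul_comm]
      rfl
    have h4 : κ.1 = 0 := by
      refine trace_ideal (𝔨 := kerM B) (fun Z hZ => hZ.1) (kerM_ideal h) _ h2 fun Z hZ => ?_
      rw [h3 ⟨Z, hk hZ⟩, hcY]
      have h5 : rhq h hle ⟨Z, hk hZ⟩ = 0 := (rhq_spec h hle ⟨Z, hk hZ⟩).uniq h.li hZ.2
      rw [h5, mul_zero, zero_mul, sub_zero, map_zero]
    apply hf1
    rw [← hcY, ← h3, h4, zero_mul, map_zero]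
  obtain ⟨Z, hZ⟩ := key
  have h1 := (rhq_spec h hle ⟨Y, hY⟩).br hM
  rw [← hZ] at h1
  have h2 : (Y * X - X * Y) - Z.1 ∈ kerM B := by
    refine ⟨A.NA.sub_mem (A.NA_bracket (hle hY) hX) (hle Z.2), ?_⟩
    have h3 := h1.add ((rhq_spec h hle Z).smul (-1))
    have h4 : (Y * X - X * Y) - Z.1 = (Y * X - X * Y) + (-1 : ℚ) • Z.1 := by
      have h6 : (-1 : ℚ) • Z.1 = -Z.1 := neg_one_smul ℚ Z.1
      rw [h6, sub_eq_add_neg]
    have h5 : (0 : Matrix (Fin n) (Fin n) ℚ) = rhq h hle Z + (-1 : ℚ) • rhq h hle Z := by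
      rw [neg_smul, one_smul, add_neg_cancel]
    rw [h4, h5]
    exact h3
  have h3 := 𝔮.add_mem (hk h2) Z.2
  rwa [sub_add_cancel] at h3

/-- An element of the normalizer of a full subalgebra is the sum of an element of the subalgebra and
of a central element. -/
theorem norm_dec (hq : A.Full 𝔮) {X : Module.End ℚ A.H1} (hX : X ∈ A.NA)
    (hn : ∀ Y ∈ 𝔮, Y * X - X * Y ∈ 𝔮) : ∃ Y ∈ 𝔮, X - Y ∈ cenA A := by
  have hnt := trace_full hq
  let f : Module.Dual ℚ 𝔮 :=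
    ((LinearMap.trace ℚ A.H1).comp (LinearMap.mulLeft ℚ X)).comp 𝔮.subtype
  let Y := (Pool.Agent.W516.KC2.trE 𝔮 hnt).symm f
  have hY : ∀ Z : 𝔮, LinearMap.trace ℚ A.H1 (Y.1 * Z.1) = LinearMap.trace ℚ A.H1 (X * Z.1) :=
    fun Z => Pool.Agent.W516.KC2.trE_symm 𝔮 hnt f Z
  have h0 : ∀ Z ∈ 𝔮, LinearMap.trace ℚ A.H1 ((X - Y.1) * Z) = 0 := by
    intro Z hZ
    rw [sub_mul, map_sub, hY ⟨Z, hZ⟩, sub_self]
  have h1 : ∀ Z ∈ 𝔮, (X - Y.1) * Z = Z * (X - Y.1) := by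
    intro Z hZ
    rw [← sub_eq_zero]
    refine hnt _ ?_ fun Z' hZ' => ?_
    · have h2 := 𝔮.neg_mem (hn Z hZ)
      have h3 := hq.br Y.1 Y.2 Z hZ
      have h4 := 𝔮.sub_mem h2 h3
      have h5 : (X - Y.1) * Z - Z * (X - Y.1) = -(Z * X - X * Z) - (Y.1 * Z - Z * Y.1) := by
        rw [sub_mul, mul_sub]
        abel
      rwa [h5]
    · rw [tr_br]
      exact h0 _ (hq.br Z hZ Z' hZ')
  have h2 := hq.comm (X - Y.1) fun Z hZ => (h1 Z hZ).symm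
  exact ⟨Y.1, Y.2, A.NA.sub_mem hX (hq.le Y.2), fun Z hZ => (h2 Z hZ).symm⟩

end Pool.Agent.N208.TS
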